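import Mathlib
import Pool.Agent.Lib.helper32.HS

set_option autoImplicit false

namespace Pool.Agent.Results.MP_53bf97_gt.NotApos

open Set Filter Topology TopologicalSpace Pool.Agent.Lib.helper32.HS

def S : Set ℝ := insert 0 (range fun n : ℕ => 1 / ((n : ℝ) + 1))

def X : Set (ℝ × ℝ) := (fun z : ℝ × ℝ => (z.1, z.1 * z.2)) '' (Icc 0 1 ×ˢ S)

lemma mem_X {s : ℝ} (h : s ∈ S) : (1, s) ∈ X := ⟨(1, s), ⟨by simp, h⟩, by simp⟩

lemma zero_X : (0, 0) ∈ X := ⟨(0, 0), ⟨by simp, Or.inl rfl⟩, by simp⟩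

def sing (x : X) : CX X := ⟨{x}, isPreconnected_singleton⟩

/-- A continuum `X` and `p ∈ X` such that `HS(p,X)` is not aposyndetic. -/
theorem result : ∃ (X : Type) (_ : MetricSpace X), CompactSpace X ∧ ConnectedSpace X ∧ Nontrivial X ∧
    ∃ (p : X) (a b : HS p), a ≠ b ∧ ¬ ApoAt a b := by
  set p : X := ⟨_, zero_X⟩ with hp
  set x : X := ⟨_, mem_X (Or.inl rfl)⟩ with hx
  have px : x ≠ p := fun h => by simp [hx, hp] at h
  refine ⟨X, inferInstance, isCompact_iff_compactSpace.1 ((isCompact_Icc.prod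
    tendsto_one_div_add_atTop_nhds_zero_nat.isCompact_insert_range).image (by fun_prop)),
    isConnected_iff_connectedSpace.1 ⟨⟨_, zero_X⟩, isPreconnected_of_forall (0, 0) ?_⟩, ⟨x, p, px⟩,
    p, ⟦sing x⟧, ⟦sing p⟧, fun h => ?_, ?_⟩
  · rintro _ ⟨z, hz, rfl⟩
    exact ⟨(fun t : ℝ => (t, t * z.2)) '' Icc 0 1, fun _ ⟨t, ht, e⟩ => ⟨(t, z.2), ⟨ht, hz.2⟩, e⟩,
      ⟨0, by simp, by simp⟩, ⟨z.1, hz.1, rfl⟩, isPreconnected_Icc.image _ (by fun_prop)⟩
  · rcases Quotient.exact h with h | h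
    · exact px (singleton_injective (congrArg (fun A : CX X => (A.1 : Set X)) h))
    · exact px (Eq.symm h.1)
  rintro ⟨M, -, m1, m2, m3⟩
  have c1 : Continuous fun y : X => (⟦sing y⟧ : HS p) :=
    continuous_quotient_mk'.comp (NonemptyCompacts.continuous_singleton.subtype_mk _)
  have t1 : Tendsto (fun n : ℕ => (⟨_, mem_X (Or.inr ⟨n, rfl⟩)⟩ : X)) atTop (𝓝 x) :=
    tendsto_subtype_rng.2 (tendsto_const_nhds.prodMk_nhds tendsto_one_div_add_atTop_nhds_zero_nat)
  obtain ⟨n, hn⟩ := (((c1.tendsto x).comp t1).eventually (mem_interior_iff_mem_nhds.1 m2)).exists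
  set c : ℝ := 1 / ((n : ℝ) + 1 + 1 / 2) with hc
  have c0 : 0 < c := by positivity
  set U : Set X := {z | z.1.2 < c * z.1.1} with hU
  set V : Set X := {z | c * z.1.1 < z.1.2} with hV
  have u1 : IsOpen U := isOpen_lt (by fun_prop) (by fun_prop)
  have v1 : IsOpen V := isOpen_lt (by fun_prop) (by fun_prop)
  have uv : Disjoint U V := disjoint_left.2 fun z h h' => lt_asymm (show z.1.2 < c * z.1.1 from h) h'
  have cov : ∀ z : X, z ≠ p → z ∈ U ∪ V := by
    rintro ⟨_, ⟨t, s⟩, ⟨h1, h2⟩, rfl⟩ h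
    have t0 : t ≠ 0 := fun e => h (by simp [hp, e])
    refine lt_or_gt_of_ne fun e : t * s = c * t => ?_
    have e' : s = c := mul_left_cancel₀ t0 (by simpa [mul_comm] using e)
    rcases h2 with h2 | ⟨k, h2⟩
    · exact c0.ne' (e'.symm.trans h2)
    · have : (2 * k : ℝ) = 2 * n + 1 := by
        have := h2.trans e'
        simp only [hc, one_div, inv_inj] at this
        linarith
      have : 2 * k = 2 * n + 1 := by exact_mod_cast this
      omega
  have op : ∀ W : Set X, IsOpen W → p ∉ W → IsOpen (Quotient.mk (rel p) '' {A : CX X | ↑A.1 ⊆ W}) := fun W h h' =>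
    open_image ((NonemptyCompacts.isOpen_subsets_of_isOpen h).preimage continuous_subtype_val)
      fun D hD _ h _ => (h' (hD h)).elim
  have pU : p ∉ U := by simp [hU, hp]
  have pV : p ∉ V := by simp [hV, hp]
  have inj : ∀ (W : Set X) (y : X), p ∉ W → (⟦sing y⟧ : HS p) ∈ Quotient.mk (rel p) '' {A : CX X | ↑A.1 ⊆ W} → y ∈ W := by
    rintro W y h ⟨A, hA, e⟩
    rcases Quotient.exact e with rfl | e
    exacts [hA rfl, (h (hA e.1)).elim]
  refine (m1.2.subset_or_subset (op U u1 pU) (op V v1 pV) (disjoint_left.2 ?_) ?_).elim (fun h => ?_) fun h => ?_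
  rotate_left 2
  · have := inj _ _ pU (h hn)
    simp only [hU, mem_setOf_eq, mul_one, hc] at this
    exact this.not_ge (one_div_le_one_div_of_le (by positivity) (by linarith))
  · simpa [hV, hx, c0.not_gt] using inj _ _ pV (h (interior_subset m2))
  · rintro _ ⟨A, hA, rfl⟩ ⟨B, hB, e⟩
    rcases Quotient.exact e with rfl | e
    · obtain ⟨y, hy⟩ := B.1.nonempty
      exact disjoint_left.1 uv (hA hy) (hB hy)
    · exact pV (hB e.1)
  · intro a ha
    induction a using Quotient.inductionOn with | h A => ?_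
    have : p ∉ A.1 := fun h => m3 ((Quotient.sound (Or.inr ⟨h, rfl⟩) : (⟦A⟧ : HS p) = ⟦sing p⟧) ▸ ha)
    exact (A.2.subset_or_subset u1 v1 uv fun z hz => cov z fun e => this (e ▸ hz)).imp
      (fun h => ⟨A, h, rfl⟩) fun h => ⟨A, h, rfl⟩

end Pool.Agent.Results.MP_53bf97_gt.NotApos
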