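import Mathlib
import Pool.Agent.Lib.helper32.HS

set_option autoImplicit false

namespace Pool.Agent.Results.MP_53bf97_gt.SemiApos

open Set Filter Topology TopologicalSpace Metric Pool.Agent.Lib.helper32.HS

variable {X : Type} [MetricSpace X] [CompactSpace X] [ConnectedSpace X]

lemma bump {K : Set X} (k2 : IsClosed K) {a b : X} (ha : a ∈ K) (hb : b ∉ K) :
    ¬ (↑) '' connectedComponent (⟨a, ha⟩ : K) ⊆ interior K := by
  intro h
  have := isCompact_iff_compactSpace.1 k2.isCompact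
  set a' : K := ⟨a, ha⟩ with ha'
  have h1 : ((↑) ⁻¹' (interior K)ᶜ : Set K) ∩ ⋂ Z : {Z : Set K // IsClopen Z ∧ a' ∈ Z}, Z = ∅ := by
    rw [← connectedComponent_eq_iInter_isClopen, eq_empty_iff_forall_notMem]
    exact fun x ⟨h1, h2⟩ => h1 (h ⟨x, h2, rfl⟩)
  have : Nonempty {Z : Set K // IsClopen Z ∧ a' ∈ Z} := ⟨⟨univ, isClopen_univ, trivial⟩⟩
  obtain ⟨Z, hZ⟩ := (isOpen_interior.isClosed_compl.preimage continuous_subtype_val).isCompact.elim_directed_family_closed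
    _ (fun Z => Z.2.1.1) h1 fun Z W => ⟨⟨Z.1 ∩ W.1, Z.2.1.inter W.2.1, Z.2.2, W.2.2⟩,
      inter_subset_left, inter_subset_right⟩
  obtain ⟨O, o1, o2⟩ := isOpen_induced_iff.1 Z.2.1.2
  have e : (↑) '' Z.1 = O ∩ interior K := by
    ext x
    refine ⟨?_, fun h => ⟨⟨x, interior_subset h.2⟩, o2 ▸ h.1, rfl⟩⟩
    rintro ⟨z, hz, rfl⟩
    exact ⟨by rwa [← o2] at hz, by_contra fun h' => (eq_empty_iff_forall_notMem.1 hZ z) ⟨h', hz⟩⟩
  have h2 : IsClopen ((↑) '' Z.1 : Set X) := ⟨k2.isClosedMap_subtype_val _ Z.2.1.1, e ▸ o1.inter isOpen_interior⟩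
  obtain ⟨z, -, hz⟩ := (h2.eq_univ ⟨a, a', Z.2.2, rfl⟩).ge (mem_univ b)
  exact hb (hz ▸ z.2)

lemma grow (E : CX X) {b : X} (hb : b ∉ E.1) {O : Set (CX X)} (hO : O ∈ 𝓝 E) : ∃ F ∈ O, E < F := by
  obtain ⟨ε, e0, e1⟩ := Metric.mem_nhds_iff.1 hO
  obtain ⟨K, k1, k2, k3⟩ := exists_compact_between E.1.isCompact
    ((isOpen_thickening (δ := ε / 2) (E := (E.1 : Set X))).inter isOpen_compl_singleton)
    (subset_inter (self_subset_thickening (half_pos e0) _) (subset_compl_singleton_iff.2 hb))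
  obtain ⟨a, ha⟩ := E.1.nonempty
  have aK : a ∈ K := interior_subset (k2 ha)
  have := isCompact_iff_compactSpace.1 k1
  have s1 : (E.1 : Set X) ⊆ (↑) '' connectedComponent (⟨a, aK⟩ : K) := by
    rw [← connectedComponentIn_eq_image]
    exact E.2.subset_connectedComponentIn ha (k2.trans interior_subset)
  refine ⟨⟨⟨⟨_, isClosed_connectedComponent.isCompact.image continuous_subtype_val⟩, ⟨a, s1 ha⟩⟩,
    isPreconnected_connectedComponent.image _ continuous_subtype_val.continuousOn⟩, e1 ?_,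
    lt_of_le_not_ge s1 fun h => bump k1.isClosed aK (fun h => (k3 h).2 rfl) (Subset.trans h k2)⟩
  refine (hausdorffDist_le_of_mem_dist (half_pos e0).le ?_ fun y hy => ⟨y, s1 hy, by simpa using (half_pos e0).le⟩).trans_lt
    (half_lt_self e0)
  rintro _ ⟨y, -, rfl⟩
  obtain ⟨w, w1, w2⟩ := mem_thickening_iff.1 (k3 y.2).1
  exact ⟨w, w1, w2.le⟩

instance : CompactSpace (CX X) := by
  refine isCompact_iff_compactSpace.1 (IsClosed.isCompact (isOpen_compl_iff.1 (isOpen_iff_mem_nhds.2 fun A hA => ?_)))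
  obtain ⟨u, v, u1, v1, h1, h2, h3⟩ : ∃ u v, IsClosed u ∧ IsClosed v ∧ ↑A ⊆ u ∪ v ∧ Disjoint u v ∧
      ¬ ((A : Set X) ⊆ u ∨ ↑A ⊆ v) := by
    by_contra! c
    exact hA ((isPreconnected_iff_subset_of_fully_disjoint_closed A.isCompact.isClosed).2 c)
  obtain ⟨U, V, U1, V1, U2, V2, h⟩ := normal_separation u1 v1 h2
  obtain ⟨⟨x, x1, x2⟩, y, y1, y2⟩ := (not_or.1 h3).imp not_subset.1 not_subset.1
  filter_upwards [(NonemptyCompacts.isOpen_subsets_of_isOpen (U1.union V1)).mem_nhds (h1.trans (union_subset_union U2 V2)),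
    (NonemptyCompacts.isOpen_inter_nonempty_of_isOpen U1).mem_nhds ⟨y, y1, U2 ((h1 y1).resolve_right y2)⟩,
    (NonemptyCompacts.isOpen_inter_nonempty_of_isOpen V1).mem_nhds ⟨x, x1, V2 ((h1 x1).resolve_left x2)⟩]
    with B b1 b2 b3 hB
  obtain ⟨z, -, hz⟩ := hB U V U1 V1 b1 b2 b3
  exact disjoint_left.1 h hz.1 hz.2

def top : CX X := ⟨⊤, isPreconnected_univ⟩

lemma meets {K : Set X} (hK : IsClosed K) : IsClosed {D : CX X | (↑D.1 ∩ K).Nonempty} :=
  (NonemptyCompacts.isClosed_inter_nonempty_of_isClosed hK).preimage continuous_subtype_val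

lemma conn {K : Set X} (hK : IsClosed K) : IsPreconnected {D : CX X | (↑D.1 ∩ K).Nonempty} := by
  set M := {D : CX X | (↑D.1 ∩ K).Nonempty} with hM
  have key : ∀ u v, IsClosed u → IsClosed v → M ⊆ u ∪ v → Disjoint u v → ∀ D ∈ M ∩ u, top ∈ u := by
    intro u v u1 v1 h1 h2 D hD
    obtain ⟨E, -, hE⟩ := zorn_le_nonempty₀ (M ∩ u) (fun c c1 c2 y hy => by
      have : Nonempty c := ⟨⟨y, hy⟩⟩
      have cl : ∀ E : c, IsClosed (M ∩ u ∩ {F | E.1 ≤ F}) := fun E => ((meets hK).inter u1).inter (by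
        convert! isClosed_biInter fun x (_ : x ∈ (E.1.1 : Set X)) => meets (isClosed_singleton (x := x)) using 1
        ext F
        simp only [mem_iInter, mem_setOf_eq, inter_singleton_nonempty]
        rfl)
      obtain ⟨F, hF⟩ := IsCompact.nonempty_iInter_of_directed_nonempty_isCompact_isClosed _ (fun E F =>
        let ⟨G, g1, g2, g3⟩ := c2.directedOn E.1 E.2 F.1 F.2
        ⟨⟨G, g1⟩, fun _ h => ⟨h.1, g2.trans h.2⟩, fun _ h => ⟨h.1, g3.trans h.2⟩⟩)
        (fun E => show (M ∩ u ∩ {F | E.1 ≤ F}).Nonempty from ⟨E.1, c1 E.2, le_refl E.1⟩) (fun E => (cl E).isCompact) cl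
      exact ⟨F, (mem_iInter.1 hF ⟨y, hy⟩).1, fun z hz => (mem_iInter.1 hF ⟨z, hz⟩).2⟩) D hD
    by_cases h : ∃ b, b ∉ E.1
    · obtain ⟨b, hb⟩ := h
      obtain ⟨F, f1, f2⟩ := grow E hb (v1.isOpen_compl.mem_nhds (disjoint_left.1 h2 hE.1.2))
      have f3 : F ∈ M := hE.1.1.mono (inter_subset_inter_left _ f2.le)
      exact (f2.not_ge (hE.2 ⟨f3, (h1 f3).resolve_right f1⟩ f2.le)).elim
    · have : E = top := Subtype.ext (NonemptyCompacts.ext (eq_univ_of_forall fun b => by_contra fun c => h ⟨b, c⟩))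
      exact this ▸ hE.1.2
  refine (isPreconnected_iff_subset_of_fully_disjoint_closed (meets hK)).2 fun u v u1 v1 h1 h2 => ?_
  by_contra! c
  obtain ⟨⟨D, d1, d2⟩, E, e1, e2⟩ := c.imp not_subset.1 not_subset.1
  exact disjoint_left.1 h2 (key u v u1 v1 h1 h2 E ⟨e1, (h1 e1).resolve_right e2⟩)
    (key v u v1 u1 (union_comm u v ▸ h1) h2.symm D ⟨d1, (h1 d1).resolve_left d2⟩)

lemma apo {p x : X} {A B : CX X} (hB : p ∉ B.1) (h1 : x ∈ A.1) (h2 : x ∉ B.1) (h3 : x = p ∨ p ∉ A.1) :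
    ApoAt (⟦A⟧ : HS p) ⟦B⟧ := by
  obtain ⟨K, k1, k2, k3⟩ := exists_mem_nhds_isClosed_subset (B.1.isCompact.isClosed.isOpen_compl.mem_nhds h2)
  have x1 := mem_interior_iff_mem_nhds.2 k1
  have o1 := (NonemptyCompacts.isOpen_inter_nonempty_of_isOpen (isOpen_interior (s := K))).preimage
    (continuous_subtype_val (p := fun A : NonemptyCompacts X => IsPreconnected (A : Set X)))
  have cq : Continuous (Quotient.mk (rel p)) := continuous_quotient_mk'
  refine ⟨_, (meets k2).isCompact.image cq,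
    IsConnected.image ⟨⟨A, show (↑A.1 ∩ K).Nonempty from ⟨x, h1, mem_of_mem_nhds k1⟩⟩, conn k2⟩ _ cq.continuousOn, ?_, ?_⟩
  · rcases h3 with rfl | h3
    · exact mem_interior.2 ⟨_, image_mono fun D hD => Set.Nonempty.mono (inter_subset_inter_right _ interior_subset) hD,
        open_image o1 fun D _ E _ h => ⟨x, h, x1⟩, A, ⟨x, h1, x1⟩, rfl⟩
    · exact mem_interior.2 ⟨_, image_mono fun D hD => Set.Nonempty.mono (inter_subset_inter_right _ interior_subset) hD.1,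
        open_image (o1.inter ((NonemptyCompacts.isOpen_subsets_of_isOpen (isOpen_compl_singleton (x := p))).preimage
          continuous_subtype_val)) fun D hD E h _ => (hD.2 h rfl).elim,
        A, ⟨⟨x, h1, x1⟩, subset_compl_singleton_iff.2 h3⟩, rfl⟩
  · rintro ⟨D, ⟨y, y1, y2⟩, e⟩
    rcases Quotient.exact e with rfl | e
    exacts [k3 y2 y1, hB e.2]

/-- `HS(p,X)` is semi-aposyndetic for every continuum `X` and every `p ∈ X`. -/
theorem result (X : Type) [MetricSpace X] [CompactSpace X] [ConnectedSpace X] (p : X) (a b : HS p) (h : a ≠ b) :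
    ApoAt a b ∨ ApoAt b a := by
  induction a using Quotient.inductionOn with | h A => ?_
  induction b using Quotient.inductionOn with | h B => ?_
  by_cases h1 : p ∈ A.1 <;> by_cases h2 : p ∈ B.1
  · exact (h (Quotient.sound (Or.inr ⟨h1, h2⟩))).elim
  · exact Or.inl (apo h2 h1 h2 (Or.inl rfl))
  · exact Or.inr (apo h1 h2 h1 (Or.inl rfl))
  by_cases c : (A.1 : Set X) ⊆ B.1
  · obtain ⟨x, x1, x2⟩ := not_subset.1 fun c' : (B.1 : Set X) ⊆ A.1 =>
      h (congrArg _ (Subtype.ext (NonemptyCompacts.ext (c.antisymm c'))))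
    exact Or.inr (apo h1 x1 x2 (Or.inr h2))
  · obtain ⟨x, x1, x2⟩ := not_subset.1 c
    exact Or.inl (apo h2 x1 x2 (Or.inr h1))

end Pool.Agent.Results.MP_53bf97_gt.SemiApos
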